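import Pool.Agent.Helper49.LT.StB

/-!
# Project LT (MP_b21509_co), module CI1: a lower bound for the extreme chord
-/

set_option autoImplicit false

open MeasureTheory Set Filter Metric

namespace Pool.Agent.Helper64.LT

open Helper49.LT Helper97.CB

private theorem ci1_pair {v : ℂ × ℂ} {z : ℝ × ℝ} {r : ℝ} (h1 : ‖v‖ < r) (h2 : ‖z‖ < r) :
    (v, z) ∈ ball (0 : (ℂ × ℂ) × (ℝ × ℝ)) r := by
  rw [mem_ball_zero_iff, Prod.norm_def]
  exact max_lt h1 h2

private theorem ci1_cont {g : (ℂ × ℂ) × (ℝ × ℝ) → ℝ} {r : ℝ} (hg : ContinuousOn g (ball 0 r))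
    {z : ℝ → ℝ × ℝ} (hz : Continuous z) (hzr : ∀ u, ‖z u‖ < r) {x : ℂ × ℂ} (hx : ‖x‖ < r) :
    Continuous (fun u => g (rot u x, z u)) := by
  have h1 : Continuous (fun u => ((rot u x, z u) : (ℂ × ℂ) × (ℝ × ℝ))) :=
    (continuous_rot x).prodMk hz
  exact hg.comp_continuous h1 (fun u => ci1_pair (by rw [norm_rot]; exact hx) (hzr u))

private theorem ci1_cc {sp : (ℂ × ℂ) × (ℝ × ℝ) → ℝ} {r : ℝ} (h : ContinuousOn sp (ball 0 r)) :
    ContinuousOn (cc sp) (ball 0 r) := by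
  have h1 : ContinuousOn (fun p : (ℂ × ℂ) × (ℝ × ℝ) => zh p.1 (sp p)) (ball 0 r) :=
    contDiff_zh.continuous.comp_continuousOn (continuous_fst.continuousOn.prodMk h)
  have h2 : Continuous (fun p : (ℂ × ℂ) × (ℝ × ℝ) => ((1 + p.2.1 : ℝ) : ℂ)) := by fun_prop
  exact Complex.continuous_re.comp_continuousOn (h2.continuousOn.mul h1)

private theorem ci1_num (a1 a2 b1 b2 η X C₁ C' nv nb c E K : ℝ) (hη : 0 ≤ η) (hη1 : η ≤ 1)
    (hX : 0 ≤ X) (hC₁ : 0 ≤ C₁) (hC' : 0 ≤ C') (ha1 : |a1| ≤ η) (ha2 : |a2| ≤ η)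
    (hb1 : |b1| ≤ η) (hb2 : |b2| ≤ η) (hnv : nv = X) (_hnb0 : 0 ≤ nb) (hnb : nb ≤ η)
    (hnb2 : nb ^ 2 ≤ b1 ^ 2 + b2 ^ 2)
    (h1 : E - C₁ * (η * (|b1 - a1| + |b2 - a2|)) ≤ c)
    (h2 : |E - (K - 5 / 6 * (b1 ^ 2 + b2 ^ 2) - 4 / 3 * (b1 * b2))| ≤ C' * ((nv + nb) * nb ^ 2)) :
    K - 5 / 6 * (a1 ^ 2 + a2 ^ 2) - 4 / 3 * (a1 * a2)
      - (3 + C₁ + 2 * C') * ((η + X) * (a1 ^ 2 + a2 ^ 2 + |b1 - a1| + |b2 - a2|)) ≤ c := by
  obtain ⟨d1, hd1⟩ : ∃ d1, d1 = |b1 - a1| := ⟨_, rfl⟩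
  obtain ⟨d2, hd2⟩ : ∃ d2, d2 = |b2 - a2| := ⟨_, rfl⟩
  have hd10 : 0 ≤ d1 := by rw [hd1]; exact abs_nonneg _
  have hd20 : 0 ≤ d2 := by rw [hd2]; exact abs_nonneg _
  have e1 : b1 ^ 2 ≤ a1 ^ 2 + 2 * η * d1 := by
    have h3 : b1 ^ 2 - a1 ^ 2 = (b1 - a1) * (b1 + a1) := by ring
    have h4 : (b1 - a1) * (b1 + a1) ≤ d1 * (2 * η) := by
      refine (le_abs_self _).trans ?_
      rw [abs_mul, ← hd1]
      refine mul_le_mul_of_nonneg_left ?_ hd10
      refine (abs_add_le _ _).trans ?_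
      linarith
    linarith
  have e2 : b2 ^ 2 ≤ a2 ^ 2 + 2 * η * d2 := by
    have h3 : b2 ^ 2 - a2 ^ 2 = (b2 - a2) * (b2 + a2) := by ring
    have h4 : (b2 - a2) * (b2 + a2) ≤ d2 * (2 * η) := by
      refine (le_abs_self _).trans ?_
      rw [abs_mul, ← hd2]
      refine mul_le_mul_of_nonneg_left ?_ hd20
      refine (abs_add_le _ _).trans ?_
      linarith
    linarith
  have e3 : b1 * b2 ≤ a1 * a2 + η * (d1 + d2) := by
    have h3 : b1 * b2 - a1 * a2 = b1 * (b2 - a2) + a2 * (b1 - a1) := by ring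
    have h4 : b1 * (b2 - a2) ≤ η * d2 := by
      refine (le_abs_self _).trans ?_
      rw [abs_mul, ← hd2]
      exact mul_le_mul_of_nonneg_right hb1 hd20
    have h5 : a2 * (b1 - a1) ≤ η * d1 := by
      refine (le_abs_self _).trans ?_
      rw [abs_mul, ← hd1]
      exact mul_le_mul_of_nonneg_right ha2 hd10
    linarith
  have e4 : C' * ((nv + nb) * nb ^ 2) ≤
      C' * ((η + X) * (a1 ^ 2 + a2 ^ 2 + 2 * (d1 + d2))) := by
    refine mul_le_mul_of_nonneg_left ?_ hC'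
    have h3 : nb ^ 2 ≤ a1 ^ 2 + a2 ^ 2 + 2 * (d1 + d2) := by
      have h4 : 2 * η * d1 ≤ 2 * d1 := by nlinarith
      have h5 : 2 * η * d2 ≤ 2 * d2 := by nlinarith
      linarith
    refine mul_le_mul ?_ h3 (by positivity) (by linarith)
    rw [hnv]
    linarith
  have h3 := (abs_le.1 h2).1
  rw [← hd1, ← hd2] at h1 ⊢
  have e5 : 0 ≤ C₁ * X * (d1 + d2) := by positivity
  have e6 : 0 ≤ C₁ * (η + X) * (a1 ^ 2 + a2 ^ 2) := by positivity
  have e7 : 0 ≤ 3 * (η + X) * (a1 ^ 2 + a2 ^ 2) := by positivity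
  have e8 : 0 ≤ 3 * X * (d1 + d2) := by positivity
  have e9 : 0 ≤ C' * ((η + X) * (a1 ^ 2 + a2 ^ 2)) := by positivity
  nlinarith [e1, e2, e3, e4, e5, e6, e7, e8, e9, h1, h3]

/-- CI1 -/
theorem hCI1 (h : StCho) : StCi1 := by
  intro r sp sm hC r' C' κp κm hr' hT
  obtain ⟨C₁, r₂, hC₁, hr₂, hr₂r, hcho⟩ := h r sp sm hC
  refine ⟨3 + C₁ + 2 * C', min (min r₂ (r' / 2)) 1, by linarith [hT.posC],
    lt_min (lt_min hr₂ (half_pos hT.pos)) zero_lt_one, ?_⟩
  intro K x w w' η hx hη hw hbd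
  have hx1 : ‖x‖ ≤ r₂ := hx.trans ((min_le_left _ _).trans (min_le_left _ _))
  have hη1 : η ≤ r₂ := hη.trans ((min_le_left _ _).trans (min_le_left _ _))
  have hx2 : ‖x‖ < r' := by
    have := hx.trans ((min_le_left _ _).trans (min_le_right _ _))
    linarith [hT.pos]
  have hη2 : η < r' := by
    have := hη.trans ((min_le_left _ _).trans (min_le_right _ _))
    linarith [hT.pos]
  have hη3 : η ≤ 1 := hη.trans (min_le_right _ _)
  have hη0 : 0 ≤ η := hw.eta_nonneg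
  have hxr : ‖x‖ < r := hx2.trans_le hr'
  have hηr : η < r := hη2.trans_le hr'
  have hz0 : ∀ u, ‖z0 sp sm w x u‖ ≤ η := by
    intro u
    unfold z0
    rw [Prod.norm_def]
    exact max_le (hw.bdd _) (hw.bdd _)
  have hz1 : ∀ u, ‖z1 sp sm w x u‖ ≤ η := by
    intro u
    unfold z1
    rw [Prod.norm_def]
    exact max_le (hw.bdd _) (hw.bdd _)
  have hsp : ContinuousOn sp (ball 0 r) := hC.cp.continuousOn
  have hsm : ContinuousOn sm (ball 0 r) := hC.cm.continuousOn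
  have h00 : ∀ _u : ℝ, ‖(0 : ℝ × ℝ)‖ < r := fun _ => by
    rw [norm_zero]
    exact hC.pos
  have c0 : Continuous (z0 sp sm w x) := by
    have h1 : Continuous (fun u => sp (rot u x, (0 : ℝ × ℝ))) :=
      ci1_cont hsp continuous_const h00 hxr
    have h2 : Continuous (fun u => sm (rot u x, (0 : ℝ × ℝ))) :=
      ci1_cont hsm continuous_const h00 hxr
    exact (hw.con.comp (continuous_id.add h1)).prodMk (hw.con.comp (continuous_id.add h2))
  have c1 : Continuous (z1 sp sm w x) := by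
    have h1 : Continuous (fun u => sp (rot u x, z0 sp sm w x u)) :=
      ci1_cont hsp c0 (fun u => (hz0 u).trans_lt hηr) hxr
    have h2 : Continuous (fun u => sm (rot u x, z0 sp sm w x u)) :=
      ci1_cont hsm c0 (fun u => (hz0 u).trans_lt hηr) hxr
    exact (hw.con.comp (continuous_id.add h1)).prodMk (hw.con.comp (continuous_id.add h2))
  have p0 : ∀ u, z0 sp sm w x (u + 2 * Real.pi) = z0 sp sm w x u := by
    intro u
    unfold z0
    rw [rot_per]
    have e1 : u + 2 * Real.pi + sp (rot u x, 0) = (u + sp (rot u x, 0)) + 2 * Real.pi := by ring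
    have e2 : u + 2 * Real.pi + sm (rot u x, 0) = (u + sm (rot u x, 0)) + 2 * Real.pi := by ring
    rw [e1, e2, hw.per, hw.per]
  have p1 : ∀ u, z1 sp sm w x (u + 2 * Real.pi) = z1 sp sm w x u := by
    intro u
    unfold z1
    rw [rot_per, p0]
    have e1 : u + 2 * Real.pi + sp (rot u x, z0 sp sm w x u) =
        (u + sp (rot u x, z0 sp sm w x u)) + 2 * Real.pi := by ring
    have e2 : u + 2 * Real.pi + sm (rot u x, z0 sp sm w x u) =
        (u + sm (rot u x, z0 sp sm w x u)) + 2 * Real.pi := by ring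
    rw [e1, e2, hw.per, hw.per]
  refine ⟨?_, ?_, ?_⟩
  · -- continuity
    have k1 : Continuous (fun u => cc sp (rot u x, (0 : ℝ × ℝ))) :=
      ci1_cont (ci1_cc hsp) continuous_const h00 hxr
    have k2 : Continuous (fun u => κp (rot u x)) :=
      hT.cp.continuousOn.comp_continuous (continuous_rot x)
        (fun u => by rw [mem_ball_zero_iff, norm_rot]; exact hx2)
    have k3 : Continuous (fun u => κm (rot u x)) :=
      hT.cm.continuousOn.comp_continuous (continuous_rot x)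
        (fun u => by rw [mem_ball_zero_iff, norm_rot]; exact hx2)
    have q1 : Continuous (fun u => (z0 sp sm w x u).1) := continuous_fst.comp c0
    have q2 : Continuous (fun u => (z0 sp sm w x u).2) := continuous_snd.comp c0
    have q3 : Continuous (fun u => (z1 sp sm w x u).1) := continuous_fst.comp c1
    have q4 : Continuous (fun u => (z1 sp sm w x u).2) := continuous_snd.comp c1
    unfold cf
    exact ((((k1.add (k2.mul q3)).add (k3.mul q4)).sub
      (continuous_const.mul ((q1.pow 2).add (q2.pow 2)))).sub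
      (continuous_const.mul (q1.mul q2))).sub
      (continuous_const.mul (continuous_const.mul
        ((((q1.pow 2).add (q2.pow 2)).add (q3.sub q1).abs).add (q4.sub q2).abs)))
  · -- periodicity
    intro u
    unfold cf
    rw [rot_per, p0, p1]
  · -- the chord
    intro u
    obtain ⟨c, hc, hle⟩ := hcho K x w w' η hx1 hη1 hw hbd u
    refine ⟨c, ?_, hc⟩
    have hn0 := hz0 u
    have hn1 := hz1 u
    rw [Prod.norm_def, max_le_iff] at hn0
    have hn1' := hn1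
    rw [Prod.norm_def, max_le_iff] at hn1'
    have htc := hT.tc (rot u x, z1 sp sm w x u)
      (ci1_pair (by rw [norm_rot]; exact hx2) (hn1.trans_lt hη2))
    have hsq : ‖z1 sp sm w x u‖ ^ 2 ≤ (z1 sp sm w x u).1 ^ 2 + (z1 sp sm w x u).2 ^ 2 := by
      rw [Prod.norm_def]
      rcases max_cases ‖(z1 sp sm w x u).1‖ ‖(z1 sp sm w x u).2‖ with ⟨e, _⟩ | ⟨e, _⟩
      · rw [e, Real.norm_eq_abs, sq_abs]
        nlinarith [sq_nonneg (z1 sp sm w x u).2]
      · rw [e, Real.norm_eq_abs, sq_abs]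
        nlinarith [sq_nonneg (z1 sp sm w x u).1]
    unfold cf
    exact ci1_num _ _ _ _ η ‖x‖ C₁ C' ‖rot u x‖ ‖z1 sp sm w x u‖ c _ _ hη0 hη3 (norm_nonneg _)
      hC₁.le hT.posC.le hn0.1 hn0.2 hn1'.1 hn1'.2 (norm_rot u x) (norm_nonneg _) hn1 hsq hle htc

end Pool.Agent.Helper64.LT
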