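import Pool.Agent.Helper49.LT.StB

/-!
# Project LT (MP_b21509_co), module EVN: even functions which are `O(‖v‖³)`
-/

set_option autoImplicit false

open MeasureTheory Set Filter Metric

namespace Pool.Agent.Helper64.LT

open Helper49.LT Helper97.CB

private noncomputable def aK {E : Type} [NormedAddCommGroup E] [NormedSpace ℝ E] (f : E → ℝ) (k : ℕ)
    (v : E) : ℝ := iteratedFDeriv ℝ k f 0 (fun _ => v)

private theorem aK_smul {E : Type} [NormedAddCommGroup E] [NormedSpace ℝ E] (f : E → ℝ) (k : ℕ)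
    (c : ℝ) (v : E) : aK f k (c • v) = c ^ k * aK f k v := by
  have h := (iteratedFDeriv ℝ k f 0).map_smul_univ (fun _ => c) (fun _ => v)
  rw [Finset.prod_const, Finset.card_univ, Fintype.card_fin, smul_eq_mul] at h
  exact h

/-- EVN -/
theorem hEVN : StEvn := by
  intro E _ _ f r C hr hf heven hb
  have hat : ∀ x ∈ ball (0 : E) r, ContDiffAt ℝ 4 f x :=
    fun x hx => hf.contDiffAt (isOpen_ball.mem_nhds hx)
  have hc : ContinuousAt (iteratedFDeriv ℝ 4 f) 0 :=
    ((hat 0 (mem_ball_self hr)).iteratedFDeriv_right (i := 4) (m := 0) (by simp)).continuousAt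
  obtain ⟨M, hM⟩ : ∃ M, M = ‖iteratedFDeriv ℝ 4 f 0‖ + 1 := ⟨_, rfl⟩
  have hM0 : 0 ≤ M := by
    rw [hM]
    positivity
  obtain ⟨δ, hδ, hδ2⟩ : ∃ δ > 0, ∀ x ∈ ball (0 : E) δ, ‖iteratedFDeriv ℝ 4 f x‖ ≤ M := by
    have h1 : ∀ᶠ x in nhds (0 : E), ‖iteratedFDeriv ℝ 4 f x‖ < M :=
      hc.norm.eventually_lt_const (by rw [hM]; linarith)
    obtain ⟨δ, hδ, h2⟩ := Metric.eventually_nhds_iff_ball.1 h1
    exact ⟨δ, hδ, fun x hx => (h2 x hx).le⟩
  have hr' : 0 < min δ r := lt_min hδ hr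
  -- Taylor's formula
  have key : ∀ v ∈ ball (0 : E) (min δ r),
      |f v - (f 0 + aK f 1 v + aK f 2 v / 2 + aK f 3 v / 6)| ≤ M / 6 * ‖v‖ ^ 4 := by
    intro v hv
    rw [mem_ball_zero_iff, lt_min_iff] at hv
    have hball : ∀ t ∈ Icc (0 : ℝ) 1, ‖(0 : E) + t • v‖ ≤ ‖v‖ := by
      intro t ht
      rw [zero_add, norm_smul, Real.norm_of_nonneg ht.1]
      exact mul_le_of_le_one_left (norm_nonneg v) ht.2
    have h1 := map_add_eq_sum_add_integral_iteratedFDeriv (f := f) (x := (0 : E)) (y := v)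
      (n := 3) (fun t ht => by
        have h2 : ContDiffAt ℝ 4 f ((0 : E) + t • v) :=
          hat _ (mem_ball_zero_iff.2 ((hball t ht).trans_lt hv.2))
        have h3 : ((3 : ℕ) + 1 : WithTop ℕ∞) = 4 := by norm_num
        rw [h3]
        exact h2)
    have h2 : ‖∫ t in (0 : ℝ)..1, (1 - t) ^ 3 • iteratedFDeriv ℝ (3 + 1) f ((0 : E) + t • v)
        (fun _ => v)‖ ≤ M * ‖v‖ ^ 4 * |1 - 0| := by
      apply intervalIntegral.norm_integral_le_of_norm_le_const
      intro t ht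
      rw [uIoc_of_le zero_le_one] at ht
      have ht' : t ∈ Icc (0 : ℝ) 1 := ⟨ht.1.le, ht.2⟩
      have h3 : ‖iteratedFDeriv ℝ 4 f ((0 : E) + t • v)‖ ≤ M :=
        hδ2 _ (mem_ball_zero_iff.2 ((hball t ht').trans_lt hv.1))
      have h4 := (iteratedFDeriv ℝ 4 f ((0 : E) + t • v)).le_opNorm (fun _ => v)
      rw [Finset.prod_const, Finset.card_univ, Fintype.card_fin] at h4
      have h5 : |(1 - t) ^ 3| ≤ 1 := by
        rw [abs_pow]
        refine pow_le_one₀ (abs_nonneg _) ?_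
        rw [abs_le]
        constructor <;> linarith [ht.1, ht.2]
      rw [norm_smul, Real.norm_eq_abs]
      calc |(1 - t) ^ 3| * ‖iteratedFDeriv ℝ (3 + 1) f ((0 : E) + t • v) (fun _ => v)‖
          ≤ 1 * (‖iteratedFDeriv ℝ 4 f ((0 : E) + t • v)‖ * ‖v‖ ^ 4) :=
            mul_le_mul h5 h4 (norm_nonneg _) zero_le_one
        _ ≤ M * ‖v‖ ^ 4 := by
            rw [one_mul]
            exact mul_le_mul_of_nonneg_right h3 (by positivity)
    simp only [Finset.sum_range_succ, Finset.sum_range_zero, zero_add, Nat.factorial,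
      iteratedFDeriv_zero_apply, smul_eq_mul] at h1 h2
    rw [Real.norm_eq_abs, sub_zero, abs_one, mul_one] at h2
    have h6 : f v - (f 0 + aK f 1 v + aK f 2 v / 2 + aK f 3 v / 6) =
        (1 / 6) * ∫ t in (0 : ℝ)..1, (1 - t) ^ 3 * iteratedFDeriv ℝ (3 + 1) f (t • v)
          (fun _ => v) := by
      rw [h1]
      unfold aK
      push_cast
      ring
    rw [h6, abs_mul, abs_of_nonneg (by norm_num : (0 : ℝ) ≤ 1 / 6)]
    calc (1 / 6 : ℝ) * _ ≤ 1 / 6 * (M * ‖v‖ ^ 4) := mul_le_mul_of_nonneg_left h2 (by norm_num)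
      _ = M / 6 * ‖v‖ ^ 4 := by ring
  -- the value at zero
  have hf0 : f 0 = 0 := by
    have h1 := hb 0 (mem_ball_self hr)
    rw [norm_zero] at h1
    have h2 : |f 0| ≤ 0 := by
      refine h1.trans (le_of_eq ?_)
      ring
    exact abs_eq_zero.1 (le_antisymm h2 (abs_nonneg _))
  -- the even part
  have key2 : ∀ v ∈ ball (0 : E) (min δ r), |f v - aK f 2 v / 2| ≤ M / 6 * ‖v‖ ^ 4 := by
    intro v hv
    have hv' : -v ∈ ball (0 : E) (min δ r) := by
      rw [mem_ball_zero_iff] at hv ⊢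
      rwa [norm_neg]
    have h1 := key v hv
    have h2 := key (-v) hv'
    rw [norm_neg, heven, ← neg_one_smul ℝ v, aK_smul, aK_smul, aK_smul, hf0] at h2
    rw [hf0] at h1
    rw [abs_le] at h1 h2 ⊢
    constructor <;> linarith [h1.1, h1.2, h2.1, h2.2]
  have key3 : ∀ v ∈ ball (0 : E) (min δ r), aK f 2 v = 0 := by
    intro v hv
    have h0 : ∀ t : ℝ, 0 < t → t ≤ 1 →
        |aK f 2 v| / 2 ≤ t * (|C| * ‖v‖ ^ 3 + M / 6 * ‖v‖ ^ 4) := by
      intro t ht ht1
      have hn : ‖t • v‖ = t * ‖v‖ := by rw [norm_smul, Real.norm_of_nonneg ht.le]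
      have htv : t • v ∈ ball (0 : E) (min δ r) := by
        rw [mem_ball_zero_iff] at hv ⊢
        rw [hn]
        exact (mul_le_of_le_one_left (norm_nonneg v) ht1).trans_lt hv
      have h1 := key2 _ htv
      have h2 := hb (t • v) (ball_subset_ball (min_le_right _ _) htv)
      rw [aK_smul, hn] at h1
      rw [hn] at h2
      have h3 : |f (t • v)| ≤ |C| * (t * ‖v‖) ^ 3 :=
        h2.trans (mul_le_mul_of_nonneg_right (le_abs_self C) (by positivity))
      have h4 : t ^ 2 * (|aK f 2 v| / 2) ≤ |C| * (t * ‖v‖) ^ 3 + M / 6 * (t * ‖v‖) ^ 4 := by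
        have h5 : t ^ 2 * (|aK f 2 v| / 2) = |t ^ 2 * aK f 2 v / 2| := by
          rw [abs_div, abs_mul, abs_of_nonneg (by positivity : (0 : ℝ) ≤ t ^ 2),
            abs_of_nonneg (by norm_num : (0 : ℝ) ≤ 2)]
          ring
        rw [h5]
        have h6 : t ^ 2 * aK f 2 v / 2 = f (t • v) - (f (t • v) - t ^ 2 * aK f 2 v / 2) := by ring
        rw [h6]
        refine (abs_sub _ _).trans ?_
        linarith
      have h7 : |C| * (t * ‖v‖) ^ 3 + M / 6 * (t * ‖v‖) ^ 4 ≤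
          t ^ 2 * (t * (|C| * ‖v‖ ^ 3 + M / 6 * ‖v‖ ^ 4)) := by
        have h8 : t ^ 4 ≤ t ^ 3 := pow_le_pow_of_le_one ht.le ht1 (by norm_num)
        have h9 : M / 6 * ‖v‖ ^ 4 * t ^ 4 ≤ M / 6 * ‖v‖ ^ 4 * t ^ 3 :=
          mul_le_mul_of_nonneg_left h8 (by positivity)
        nlinarith [h9]
      exact le_of_mul_le_mul_left (h4.trans h7) (by positivity)
    have h1 : |aK f 2 v| / 2 ≤ 0 := by
      apply le_of_forall_pos_le_add
      intro ε hε
      rw [zero_add]
      obtain ⟨B, hB⟩ : ∃ B, B = |C| * ‖v‖ ^ 3 + M / 6 * ‖v‖ ^ 4 := ⟨_, rfl⟩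
      have hB0 : 0 ≤ B := by
        rw [hB]
        positivity
      have h2 := h0 (min 1 (ε / (B + 1))) (lt_min zero_lt_one (by positivity)) (min_le_left _ _)
      rw [← hB] at h2
      calc |aK f 2 v| / 2 ≤ min 1 (ε / (B + 1)) * B := h2
        _ ≤ ε / (B + 1) * B := mul_le_mul_of_nonneg_right (min_le_right _ _) hB0
        _ ≤ ε := by
          rw [div_mul_eq_mul_div, div_le_iff₀ (by positivity)]
          nlinarith
    have h2 : |aK f 2 v| = 0 := le_antisymm (by linarith) (abs_nonneg _)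
    exact abs_eq_zero.1 h2
  refine ⟨M / 6, min δ r, by positivity, hr', min_le_right _ _, fun v hv => ?_⟩
  have h1 := key2 v hv
  rw [key3 v hv, zero_div, sub_zero] at h1
  exact h1

end Pool.Agent.Helper64.LT
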